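import Pool.Agent.H54.PD.Extra

/-!
# The minimum-degree threshold for a cyclic discrete fundamental group, for almost all graphs

For a finite simple graph `G`, two walks are homotopic if one can be turned into the other by
substitutions, insertions and deletions (`Move`, `Homotopic`); `PiOne G v` is the group of homotopy
classes of closed walks at `v`.  `deltaCyc H` is the infimum of the `α ≥ 0` such that every
`H`-free finite graph `G` with `δ(G) > α |G|` has all its groups `PiOne G v` cyclic.

`ext m` is the graph `G_m`: a stable set of `m + 1` vertices completely joined to two disjoint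
cliques with `m` vertices each; `extIndex H` is the least `m` such that `H` is a subgraph of
`G_m`; `thr m = 2 (m - 1) / (3 m - 2)`.

The definitions are in `Pool/Agent/H54/PD/Base.lean` (walks, `PiOne`, `deltaCyc`, `ext`),
`Index.lean` (`thr`, `extIndex`, `IsOrdering`) and `Dense.lean` (`NoStableCutset`).
-/

set_option autoImplicit false

namespace Pool.Agent.Results.MP_331a15_co.AlmostAllGraphs

open SimpleGraph Finset Filter Topology Pool.Agent.H54.PD

open Classical in
/-- **Main result.** For the threshold `δ_cyc(H)` of a finite graph `H` with `n` vertices,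
independence number `α` and index `m(H) = extIndex H`, where `thr m = 2 (m - 1) / (3 m - 2)`:

1. `δ_cyc(H) = thr (n - α)` for almost every graph `H`: the proportion of such graphs among all
  graphs with vertex set `Fin n` tends to `1`;
2. if deleting a stable set never disconnects `H` and `max (n - α) ⌊n/2⌋ ≥ 4`, then
  `δ_cyc(H) = thr (max (n - α) ⌊n/2⌋)`;
3. `δ_cyc(H) = thr (m(H))` for every graph `H` with `n ≥ 11` and `n ≥ 6 d - 1` whose vertices can
  be ordered such that every vertex has at most `d` neighbours before it;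
4. for the complete `r`-partite graph with parts of size `t`, `r ≥ 3`, `(r - 1) t ≥ 4`, the
  value is `thr ((r - 1) t)`;
5. for the cycle of length `k ≥ 11` it is `thr ⌊(k + 1) / 3⌋`;
6. for every graph with `n ≥ 11` vertices, `2 / (9 n - 15) ≤ 2/3 - δ_cyc(H) ≤ 2 / (3 n - 9)`;
7. for every graph with `m(H) ≥ 3`, `δ_cyc(H) ≥ thr (m(H))`;
8. for every graph and every `m ≥ 4` with `m ≥ n - α` and `m ≥ ⌊n/2⌋`, `δ_cyc(H) ≤ thr m`;
9. for every graph with an ordering as in 3 and every `m ≥ 4` with `m ≥ 2 d`, `m ≥ m(H)`,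
  `δ_cyc(H) ≤ thr m`. -/
theorem result :
    Tendsto (fun n : ℕ => (((univ : Finset (SimpleGraph (Fin n))).filter fun H =>
      deltaCyc H = thr (n - H.indepNum)).card : ℝ) / Fintype.card (SimpleGraph (Fin n)))
      atTop (𝓝 1) ∧
    (∀ (W : Type) [Fintype W] (H : SimpleGraph W), NoStableCutset H →
      4 ≤ max (Fintype.card W - H.indepNum) (Fintype.card W / 2) →
      deltaCyc H = thr (max (Fintype.card W - H.indepNum) (Fintype.card W / 2))) ∧
    (∀ (W : Type) [Fintype W] (H : SimpleGraph W) (d : ℕ) (f : W → ℕ), IsOrdering H d f →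
      11 ≤ Fintype.card W → 6 * d ≤ Fintype.card W + 1 → deltaCyc H = thr (extIndex H)) ∧
    (∀ r t : ℕ, 3 ≤ r → 4 ≤ (r - 1) * t →
      deltaCyc (completeEquipartiteGraph r t) = thr ((r - 1) * t)) ∧
    (∀ k : ℕ, 11 ≤ k → deltaCyc (cycleGraph k) = thr ((k + 1) / 3)) ∧
    (∀ (W : Type) [Fintype W] (H : SimpleGraph W), 11 ≤ Fintype.card W →
      2 / (9 * (Fintype.card W : ℝ) - 15) ≤ 2 / 3 - deltaCyc H ∧
        2 / 3 - deltaCyc H ≤ 2 / (3 * (Fintype.card W : ℝ) - 9)) ∧
    (∀ (W : Type) [Fintype W] (H : SimpleGraph W), 3 ≤ extIndex H →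
      thr (extIndex H) ≤ deltaCyc H) ∧
    (∀ (W : Type) [Fintype W] (H : SimpleGraph W) (m : ℕ), 4 ≤ m →
      Fintype.card W - H.indepNum ≤ m → Fintype.card W / 2 ≤ m → deltaCyc H ≤ thr m) ∧
    (∀ (W : Type) [Fintype W] (H : SimpleGraph W) (d m : ℕ) (f : W → ℕ), IsOrdering H d f →
      4 ≤ m → 2 * d ≤ m → extIndex H ≤ m → deltaCyc H ≤ thr m) := by
  refine ⟨almost_all, ?_, ?_, fun r t hr h4 => exact_equipartite hr h4, fun k hk => exact_cycle hk,
    fun W _ H hn => all_graphs H hn, fun W _ H h3 => lower_extIndex h3,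
    fun W _ H m h4 h1 h2 => upper_general H h4 h1 h2,
    fun W _ H d m f hf h4 hd hm => upper_ordering H hf h4 hd hm⟩
  · intro W _ H hH h4
    rw [← extIndex_of_noStableCutset hH] at h4 ⊢
    exact exact_dense hH h4
  · intro W _ H d f hf h11 h6
    have h := card_le_extIndex H
    exact exact_sparse hf (by omega) (by omega)

end Pool.Agent.Results.MP_331a15_co.AlmostAllGraphs
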